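import Mathlib
import Pool.Agent.H10.WkB

namespace Pool.Agent.Results.MP_d775c4_co.Sharp
open Pool.Agent.H10.Wk Finset

theorem result (m : ℕ) (hm : 31 ≤ m) (w : ℕ → ℕ) :
    ∃ (V : Type) (_ : Fintype V) (G : SimpleGraph V),
      Fintype.card V ≤ m ^ m + m ^ (m - 1) + m - 1 ∧ Realizes G m w := by
  obtain ⟨p, rfl⟩ : ∃ p, m = p + 2 := ⟨m - 2, by omega⟩
  set ρ : ℕ → ℕ := fun j => ((Icc 1 (p + 2)).filter fun k => w k < w j).card with hρ
  have hρ1 : ∀ j, 1 ≤ j → j ≤ p + 2 → ρ j ≤ p + 1 := by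
    intro j h1 h2
    have : ((Icc 1 (p + 2)).filter fun k => w k < w j) ⊆ (Icc 1 (p + 2)).erase j := by
      intro k hk
      rw [mem_filter] at hk
      refine mem_erase.2 ⟨?_, hk.1⟩
      rintro rfl
      exact lt_irrefl _ hk.2
    have h3 := card_le_card this
    rw [card_erase_of_mem (mem_Icc.2 ⟨h1, h2⟩), Nat.card_Icc] at h3
    simp only [hρ]; omega
  have hρ2 : ∀ j ∈ Icc 1 (p + 2), ∀ k, (ρ j ≤ ρ k ↔ w j ≤ w k) ∨ k ∉ Icc 1 (p + 2) := by
    intro j hj k
    by_cases hk : k ∈ Icc 1 (p + 2)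
    · left
      constructor
      · intro h
        by_contra hlt
        push Not at hlt
        have : ((Icc 1 (p + 2)).filter fun i => w i < w k) ⊂
            ((Icc 1 (p + 2)).filter fun i => w i < w j) := by
          refine ⟨fun i hi => ?_, fun hs => ?_⟩
          · rw [mem_filter] at hi ⊢
            exact ⟨hi.1, hi.2.trans hlt⟩
          · have := hs (mem_filter.2 ⟨hk, hlt⟩)
            exact lt_irrefl _ (mem_filter.1 this).2
        have := card_lt_card this
        simp only [hρ] at h; omega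
      · intro h
        refine card_le_card fun i hi => ?_
        rw [mem_filter] at hi ⊢
        exact ⟨hi.1, lt_of_lt_of_le hi.2 h⟩
    · exact Or.inr hk
  set T := (p + 3) * (p + 2) ^ (p + 1) with hT
  have hT1 : p + 3 ≤ T := Nat.le_mul_of_pos_right _ (by positivity)
  have hρm := hρ1 (p + 2) (by omega) le_rfl
  obtain ⟨f, ⟨V, _, G, hG⟩, e1, e2⟩ := main p (by omega) (fun j => T + ρ j - ρ (p + 2))
    (by omega) (fun j _ _ => by omega)
    (fun j i1 i2 => by have := hρ1 j i1 i2; omega)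
  refine ⟨V, inferInstance, G, ?_, ?_, ?_⟩
  · rw [← ic_one G, hG 1 le_rfl, e1 1 le_rfl (by omega)]
    have := hρ1 1 le_rfl (by omega)
    have e : T = (p + 2) ^ (p + 2) + (p + 2) ^ (p + 2 - 1) := by
      rw [hT, show p + 2 - 1 = p + 1 by omega]; ring
    omega
  · apply le_antisymm
    · by_contra hlt
      push Not at hlt
      obtain ⟨s, hs⟩ := G.exists_isNIndepSet_indepNum
      have h0 : ic G G.indepNum = 0 := by rw [hG _ (by omega), e2 _ hlt]
      rw [ic_eq, card_eq_zero] at h0
      have : s ∈ II G G.indepNum := by simp [II, hs]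
      rw [h0] at this; simp at this
    · have h0 : 0 < ic G (p + 2) := by
        rw [hG _ (by omega), e1 _ (by omega) le_rfl]; omega
      rw [ic_eq, card_pos] at h0
      obtain ⟨s, hs⟩ := h0
      have hs' : G.IsNIndepSet (p + 2) s := by simpa [II] using hs
      rw [← hs'.2]
      exact hs'.1.card_le_indepNum
  · intro j hj k hk
    have hj' := mem_Icc.1 hj
    have hk' := mem_Icc.1 hk
    rw [hG j hj'.1, hG k hk'.1, e1 j hj'.1 hj'.2, e1 k hk'.1 hk'.2]
    rcases hρ2 j hj k with h | h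
    · rw [← h]; omega
    · exact absurd hk h

end Pool.Agent.Results.MP_d775c4_co.Sharp
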